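import Pool.Agent.Y998.CN.Defs

/-!
# CN-CG: the trace for the complete graph (helper259, for project CN of helper998)
-/

set_option autoImplicit false

namespace Pool.Agent.Y259.CN

open Finset Equiv Pool.Agent.Y998.ST Pool.Agent.Y998.CN

section trace

variable {S : Type} [Fintype S] [DecidableEq S]

open scoped Matrix.Norms.Operator in
/-- the trace of the exponential as a sum over eigenvalues -/
theorem trace_E (H : Matrix S S ℝ) (hH : H.IsHermitian) (t : ℝ) :
    (E (-H) t).trace = ∑ i, Real.exp (-(t * hH.eigenvalues i)) := by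
  obtain ⟨U, hU⟩ : ∃ U : Matrix S S ℝ, U = (hH.eigenvectorUnitary : Matrix S S ℝ) := ⟨_, rfl⟩
  have h1 : star U * U = 1 := by rw [hU]; exact Unitary.coe_star_mul_self _
  have h2 : U * star U = 1 := by rw [hU]; exact Unitary.coe_mul_star_self _
  have hinv : U⁻¹ = star U := Matrix.inv_eq_right_inv h2
  have hunit : IsUnit U := ⟨⟨U, star U, h2, h1⟩, rfl⟩
  have h3 : H = U * Matrix.diagonal hH.eigenvalues * U⁻¹ := by
    have h4 := hH.spectral_theorem
    rw [Unitary.conjStarAlgAut_apply] at h4
    rw [hinv, hU]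
    exact h4
  have h5 : t • (-H) = U * Matrix.diagonal (fun i => -(t * hH.eigenvalues i)) * U⁻¹ := by
    have h6 : Matrix.diagonal (fun i => -(t * hH.eigenvalues i)) =
        (-t) • Matrix.diagonal hH.eigenvalues := by
      rw [← Matrix.diagonal_smul]
      congr 1
      funext i
      simp
    rw [h6, Matrix.mul_smul, Matrix.smul_mul, ← h3, smul_neg, neg_smul]
  unfold E
  rw [h5, Matrix.exp_conj _ _ hunit, Matrix.exp_diagonal, Matrix.trace_mul_comm, ← mul_assoc,
    hinv, h1, one_mul, Matrix.trace_diagonal]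
  apply Finset.sum_congr rfl
  intro i _
  rw [Pi.coe_exp, Real.exp_eq_exp_ℝ]

/-- an eigenvector with a small eigenvalue lies in an invariant subspace whose orthogonal
complement contains no such eigenvector -/
theorem eig_mem (H : Matrix S S ℝ) (hH : H.IsHermitian) (W : Submodule ℝ (EuclideanSpace ℝ S))
    (hW : ∀ f ∈ W, Matrix.toEuclideanLin H f ∈ W) (θ : ℝ)
    (hθ : ∀ (lam : ℝ) (f : EuclideanSpace ℝ S), f ≠ 0 → Matrix.toEuclideanLin H f = lam • f →
      f ∈ Wᗮ → θ ≤ lam) (i : S) (hi : hH.eigenvalues i < θ) : hH.eigenvectorBasis i ∈ W := by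
  obtain ⟨T, hT⟩ : ∃ T, T = Matrix.toEuclideanLin H := ⟨_, rfl⟩
  have hsym : T.IsSymmetric := by rw [hT]; exact Matrix.isSymmetric_toEuclideanLin_iff.2 hH
  obtain ⟨u, hu⟩ : ∃ u, u = hH.eigenvectorBasis i := ⟨_, rfl⟩
  have hTu : T u = hH.eigenvalues i • u := by
    rw [hT, hu]
    have h1 := hH.mulVec_eigenvectorBasis i
    rw [Matrix.toLpLin_apply]
    rw [h1]
    rfl
  rw [← hT] at hW hθ
  rw [← hu]
  have hperp : ∀ f ∈ Wᗮ, T f ∈ Wᗮ := by
    intro f hf
    rw [Submodule.mem_orthogonal]
    intro w hw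
    rw [← hsym w f]
    exact (Submodule.mem_orthogonal W f).1 hf _ (hW w hw)
  obtain ⟨w, hw, v, hv, huv⟩ : ∃ w ∈ W, ∃ v ∈ Wᗮ, u = w + v :=
    ⟨W.starProjection u, Submodule.starProjection_apply_mem W u, u - W.starProjection u,
      Submodule.sub_starProjection_mem_orthogonal u, by abel⟩
  by_cases hv0 : v = 0
  · rw [huv, hv0, add_zero]
    exact hw
  · exfalso
    have h1 : T v - hH.eigenvalues i • v = hH.eigenvalues i • w - T w := by
      have h2 : T w + T v = hH.eigenvalues i • (w + v) := by rw [← map_add, ← huv, hTu]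
      rw [smul_add] at h2
      rw [sub_eq_sub_iff_add_eq_add, add_comm (T v), h2]
    have h3 : T v - hH.eigenvalues i • v ∈ Wᗮ :=
      Submodule.sub_mem _ (hperp v hv) (Submodule.smul_mem _ _ hv)
    have h4 : T v - hH.eigenvalues i • v ∈ W := by
      rw [h1]
      exact Submodule.sub_mem _ (Submodule.smul_mem _ _ hw) (hW w hw)
    have h5 : T v - hH.eigenvalues i • v = 0 := by
      have h6 := (Submodule.mem_orthogonal W _).1 h3 _ h4
      exact inner_self_eq_zero.1 h6
    have h6 := hθ (hH.eigenvalues i) v hv0 (sub_eq_zero.1 h5) hv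
    linarith

theorem eig_card (H : Matrix S S ℝ) (hH : H.IsHermitian) (W : Submodule ℝ (EuclideanSpace ℝ S))
    (hW : ∀ f ∈ W, Matrix.toEuclideanLin H f ∈ W) (θ : ℝ)
    (hθ : ∀ (lam : ℝ) (f : EuclideanSpace ℝ S), f ≠ 0 → Matrix.toEuclideanLin H f = lam • f →
      f ∈ Wᗮ → θ ≤ lam) :
    (univ.filter fun i => hH.eigenvalues i < θ).card ≤ Module.finrank ℝ W := by
  have h1 : LinearIndependent ℝ (fun i : {i // hH.eigenvalues i < θ} =>
      (⟨hH.eigenvectorBasis i.1, eig_mem H hH W hW θ hθ i.1 i.2⟩ : W)) := by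
    apply LinearIndependent.of_comp W.subtype
    exact hH.eigenvectorBasis.orthonormal.linearIndependent.comp _ Subtype.val_injective
  have h2 := h1.fintype_card_le_finrank
  rw [Fintype.card_subtype] at h2
  exact h2

end trace

section patterns

variable {V : Type} [Fintype V] [DecidableEq V] {q : ℕ}

/-- the complete graph Hamiltonian -/
noncomputable abbrev H1 (V : Type) [Fintype V] [DecidableEq V] (q : ℕ) :
    Matrix (V → Fin q) (V → Fin q) ℝ := ham q (fun _ _ : V => (1 : ℝ))

theorem ham_apply (f : (V → Fin q) → ℝ) (c : V → Fin q) :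
    ∑ c', H1 V q c c' * f c' = ∑ x, ∑ y, 1 / 2 * (f c - f (c ∘ swap x y)) := by
  simp only [H1, ham, Finset.sum_mul]
  rw [Finset.sum_comm]
  refine Finset.sum_congr rfl fun x _ => ?_
  rw [Finset.sum_comm]
  refine Finset.sum_congr rfl fun y _ => ?_
  have h1 : ∀ c', (1 : ℝ) / 2 * ((if c' = c then 1 else 0) - (if c' = c ∘ swap x y then 1 else 0)) *
      f c' = (if c' = c then 1 / 2 * f c' else 0) - (if c' = c ∘ swap x y then 1 / 2 * f c' else 0) := by
    intro c'
    split_ifs <;> ring
  rw [Finset.sum_congr rfl fun c' _ => h1 c', Finset.sum_sub_distrib, Finset.sum_ite_eq',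
    Finset.sum_ite_eq', if_pos (Finset.mem_univ _), if_pos (Finset.mem_univ _)]
  ring

omit [Fintype V] in
theorem comp_swap_swap (c : V → Fin q) (x y : V) : (c ∘ swap x y) ∘ swap x y = c := by
  funext z
  simp

theorem ham_herm : (H1 V q).IsHermitian := by
  ext c c'
  rw [Matrix.conjTranspose_apply, star_trivial]
  simp only [H1, ham]
  refine Finset.sum_congr rfl fun x _ => Finset.sum_congr rfl fun y _ => ?_
  have h1 : (c = c' ∘ swap x y) ↔ (c' = c ∘ swap x y) := by
    constructor
    · intro h; rw [h, comp_swap_swap]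
    · intro h; rw [h, comp_swap_swap]
  have h2 : (c = c') ↔ (c' = c) := eq_comm
  simp only [h1, h2]

/-- composition with a transposition as a permutation of the colourings -/
def swp (x y : V) : (V → Fin q) ≃ (V → Fin q) where
  toFun c := c ∘ swap x y
  invFun c := c ∘ swap x y
  left_inv c := comp_swap_swap c x y
  right_inv c := comp_swap_swap c x y

theorem ham_psd (f : (V → Fin q) → ℝ) : 0 ≤ ∑ c, f c * ∑ c', H1 V q c c' * f c' := by
  simp only [ham_apply, Finset.mul_sum]
  rw [Finset.sum_comm]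
  refine Finset.sum_nonneg fun x _ => ?_
  rw [Finset.sum_comm]
  refine Finset.sum_nonneg fun y _ => ?_
  have h1 : ∑ c : V → Fin q, f (c ∘ swap x y) ^ 2 = ∑ c, f c ^ 2 :=
    (swp x y).sum_comp (fun c => f c ^ 2)
  have h2 : ∑ c, f c * (1 / 2 * (f c - f (c ∘ swap x y))) =
      1 / 4 * ∑ c, (f c - f (c ∘ swap x y)) ^ 2 +
      1 / 4 * (∑ c, f c ^ 2 - ∑ c : V → Fin q, f (c ∘ swap x y) ^ 2) := by
    rw [← Finset.sum_sub_distrib, Finset.mul_sum, Finset.mul_sum, ← Finset.sum_add_distrib]
    refine Finset.sum_congr rfl fun c _ => ?_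
    ring
  rw [h2, h1, sub_self, mul_zero, add_zero]
  positivity

/-- the condition of a pattern -/
def Pc (p : (V → Option (Fin q)) × (Fin q → ℕ)) (c : V → Fin q) : Prop :=
  (∀ x a, p.1 x = some a → c x = a) ∧ (∀ a, (univ.filter fun x => c x = a).card = p.2 a)

instance (p : (V → Option (Fin q)) × (Fin q → ℕ)) (c : V → Fin q) : Decidable (Pc p c) :=
  inferInstanceAs (Decidable ((∀ x a, p.1 x = some a → c x = a) ∧
    (∀ a, (univ.filter fun x => c x = a).card = p.2 a)))

/-- the indicator of a pattern -/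
noncomputable def pat (p : (V → Option (Fin q)) × (Fin q → ℕ)) : EuclideanSpace ℝ (V → Fin q) :=
  WithLp.toLp 2 (fun c => if Pc p c then (1 : ℝ) else 0)

/-- the patterns with at most `j` specified sites -/
def nsp (ν : V → Option (Fin q)) : ℕ := (univ.filter fun x => ν x ≠ none).card

/-- the span of the patterns -/
noncomputable def WW (V : Type) [Fintype V] [DecidableEq V] (q j : ℕ) :
    Submodule ℝ (EuclideanSpace ℝ (V → Fin q)) :=
  Submodule.span ℝ (pat '' {p | nsp p.1 ≤ j})

theorem card_comp_swap (P : V → Prop) [DecidablePred P] (x y : V) :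
    (univ.filter fun z => P (swap x y z)).card = (univ.filter fun z => P z).card := by
  apply Finset.card_bij (fun z _ => swap x y z)
  · intro z hz
    simpa using hz
  · intro z _ z' _ h
    exact (swap x y).injective h
  · intro z hz
    exact ⟨swap x y z, by simpa using hz, by simp⟩

theorem Pc_swap (p : (V → Option (Fin q)) × (Fin q → ℕ)) (c : V → Fin q) (x y : V) :
    Pc p (c ∘ swap x y) ↔ Pc (p.1 ∘ swap x y, p.2) c := by
  unfold Pc
  have h1 : (∀ z a, p.1 z = some a → (c ∘ swap x y) z = a) ↔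
      (∀ z a, (p.1 ∘ swap x y) z = some a → c z = a) := by
    constructor
    · intro h z a hz
      have := h (swap x y z) a hz
      simpa using this
    · intro h z a hz
      have := h (swap x y z) a (by simpa using hz)
      exact this
  have h2 : ∀ a, (univ.filter fun z => (c ∘ swap x y) z = a).card =
      (univ.filter fun z => c z = a).card := fun a => card_comp_swap (fun z => c z = a) x y
  rw [h1]
  simp only [h2]

theorem nsp_swap (ν : V → Option (Fin q)) (x y : V) : nsp (ν ∘ swap x y) = nsp ν :=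
  card_comp_swap (fun z => ν z ≠ none) x y

theorem toE_apply (f : EuclideanSpace ℝ (V → Fin q)) (c : V → Fin q) :
    (Matrix.toEuclideanLin (H1 V q) f) c = ∑ x, ∑ y, 1 / 2 * (f c - f (c ∘ swap x y)) := by
  rw [Matrix.toLpLin_apply]
  exact ham_apply f c

theorem toE_pat (p : (V → Option (Fin q)) × (Fin q → ℕ)) :
    Matrix.toEuclideanLin (H1 V q) (pat p) =
      ∑ x, ∑ y, (1 / 2 : ℝ) • (pat p - pat (p.1 ∘ swap x y, p.2)) := by
  ext c
  rw [toE_apply]
  simp only [WithLp.ofLp_sum, Finset.sum_apply]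
  refine Finset.sum_congr rfl fun x _ => Finset.sum_congr rfl fun y _ => ?_
  change _ = 1 / 2 * (pat p c - pat (p.1 ∘ swap x y, p.2) c)
  congr 2
  change (if Pc p (c ∘ swap x y) then (1 : ℝ) else 0) = if Pc (p.1 ∘ swap x y, p.2) c then 1 else 0
  simp only [Pc_swap]

theorem WW_inv (j : ℕ) : ∀ f ∈ WW V q j, Matrix.toEuclideanLin (H1 V q) f ∈ WW V q j := by
  intro f hf
  unfold WW at hf
  induction hf using Submodule.span_induction with
  | mem f hf =>
    obtain ⟨p, hp, rfl⟩ := hf
    rw [toE_pat]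
    refine Submodule.sum_mem _ fun x _ => Submodule.sum_mem _ fun y _ => Submodule.smul_mem _ _ ?_
    refine Submodule.sub_mem _ (Submodule.subset_span ⟨p, hp, rfl⟩) (Submodule.subset_span ?_)
    refine ⟨(p.1 ∘ swap x y, p.2), ?_, rfl⟩
    change nsp (p.1 ∘ swap x y) ≤ j
    rw [nsp_swap]
    exact hp
  | zero => rw [map_zero]; exact Submodule.zero_mem _
  | add f g _ _ hf hg => rw [map_add]; exact Submodule.add_mem _ hf hg
  | smul a f _ hf => rw [map_smul]; exact Submodule.smul_mem _ _ hf

theorem card_nsp (j : ℕ) : (univ.filter fun ν : V → Option (Fin q) => nsp ν ≤ j).card ≤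
    (Fintype.card V * q + 1) ^ j := by
  induction j with
  | zero =>
    rw [pow_zero]
    refine (Finset.card_le_card (t := {fun _ => none}) ?_).trans (by simp)
    intro ν hν
    rw [Finset.mem_filter] at hν
    have h1 := Nat.le_zero.1 hν.2
    unfold nsp at h1
    rw [Finset.card_eq_zero, Finset.filter_eq_empty_iff] at h1
    rw [Finset.mem_singleton]
    funext x
    have := h1 (Finset.mem_univ x)
    push Not at this
    exact this
  | succ j ih =>
    have h1 : (univ.filter fun ν : V → Option (Fin q) => nsp ν ≤ j + 1) ⊆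
        ((univ.filter fun ν : V → Option (Fin q) => nsp ν ≤ j) ×ˢ
          (univ : Finset (Option (V × Fin q)))).image
          (fun r => r.2.elim r.1 (fun s => Function.update r.1 s.1 (some s.2))) := by
      intro ν hν
      rw [Finset.mem_filter] at hν
      rw [Finset.mem_image]
      by_cases h0 : nsp ν ≤ j
      · exact ⟨(ν, none), by simp [h0], rfl⟩
      · have h2 : 0 < nsp ν := by omega
        obtain ⟨x, hx⟩ := Finset.card_pos.1 h2
        rw [Finset.mem_filter] at hx
        obtain ⟨a, ha⟩ := Option.ne_none_iff_exists'.1 hx.2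
        refine ⟨(Function.update ν x none, some (x, a)), ?_, ?_⟩
        · rw [Finset.mem_product, Finset.mem_filter]
          refine ⟨⟨Finset.mem_univ _, ?_⟩, Finset.mem_univ _⟩
          have h3 : nsp (Function.update ν x none) < nsp ν := by
            unfold nsp
            apply Finset.card_lt_card
            rw [Finset.ssubset_iff_of_subset]
            · exact ⟨x, by simp [ha], by simp⟩
            · intro z hz
              rw [Finset.mem_filter] at hz ⊢
              refine ⟨Finset.mem_univ _, ?_⟩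
              by_cases hzx : z = x
              · rw [hzx, ha]; simp
              · rw [Function.update_of_ne hzx] at hz
                exact hz.2
          change nsp (Function.update ν x none) ≤ j
          omega
        · simp only [Option.elim_some, Function.update_idem]
          rw [← ha, Function.update_eq_self]
    refine (Finset.card_le_card h1).trans (Finset.card_image_le.trans ?_)
    rw [Finset.card_product, Finset.card_univ, Fintype.card_option, Fintype.card_prod,
      Fintype.card_fin, pow_succ]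
    exact Nat.mul_le_mul_right _ ih

theorem finrank_WW (j : ℕ) : Module.finrank ℝ (WW V q j) ≤
    (Fintype.card V + 1) ^ q * (Fintype.card V * q + 1) ^ j := by
  obtain ⟨F, hF⟩ : ∃ F : Finset ((V → Option (Fin q)) × (Fin q → ℕ)),
      F = (univ.filter fun ν : V → Option (Fin q) => nsp ν ≤ j) ×ˢ
        Fintype.piFinset (fun _ : Fin q => range (Fintype.card V + 1)) := ⟨_, rfl⟩
  have h1 : WW V q j ≤ Submodule.span ℝ ((F.image pat : Finset _) : Set _) := by
    unfold WW
    rw [Submodule.span_le]
    rintro f ⟨p, hp, rfl⟩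
    by_cases hp2 : ∀ a, p.2 a ≤ Fintype.card V
    · apply Submodule.subset_span
      rw [Finset.coe_image]
      refine ⟨p, ?_, rfl⟩
      rw [hF, Finset.mem_coe, Finset.mem_product, Finset.mem_filter, Fintype.mem_piFinset]
      exact ⟨⟨Finset.mem_univ _, hp⟩, fun a => Finset.mem_range.2 (Nat.lt_succ_iff.2 (hp2 a))⟩
    · push Not at hp2
      obtain ⟨a, ha⟩ := hp2
      have h2 : pat p = 0 := by
        ext c
        change (if Pc p c then (1 : ℝ) else 0) = 0
        rw [if_neg]
        rintro ⟨-, h3⟩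
        have h4 := Finset.card_le_univ (univ.filter fun x => c x = a)
        rw [h3 a] at h4
        omega
      rw [h2]
      exact Submodule.zero_mem _
  refine (Submodule.finrank_mono h1).trans ?_
  refine (finrank_span_finset_le_card (F.image pat)).trans (Finset.card_image_le.trans ?_)
  rw [hF, Finset.card_product, Fintype.card_piFinset_const, Finset.card_range, mul_comm]
  exact Nat.mul_le_mul_left _ (card_nsp j)

theorem WW_perp (hEN : S_EN) (j : ℕ) (lam : ℝ) (f : EuclideanSpace ℝ (V → Fin q)) (hf : f ≠ 0)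
    (h : Matrix.toEuclideanLin (H1 V q) f = lam • f) (hp : f ∈ (WW V q j)ᗮ) :
    ((j : ℝ) + 1) * Fintype.card V / q ≤ lam := by
  refine hEN V q j lam f ?_ ?_ ?_
  · intro h0
    apply hf
    ext c
    exact congrFun h0 c
  · intro c
    have h1 : (Matrix.toEuclideanLin (H1 V q) f) c = (lam • f) c := by rw [h]
    rw [Matrix.toLpLin_apply] at h1
    exact h1
  · intro ν μ hν
    have h1 : pat (ν, μ) ∈ WW V q j := Submodule.subset_span ⟨(ν, μ), hν, rfl⟩
    have h2 := (Submodule.mem_orthogonal _ f).1 hp _ h1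
    rw [PiLp.inner_apply] at h2
    refine Eq.trans ?_ h2
    refine Finset.sum_congr rfl fun c _ => ?_
    change (if Pc (ν, μ) c then f c else 0) = inner ℝ (if Pc (ν, μ) c then (1 : ℝ) else 0) (f c)
    by_cases hc : Pc (ν, μ) c
    · rw [if_pos hc, if_pos hc]
      simp
    · rw [if_neg hc, if_neg hc]
      simp

theorem count (hEN : S_EN) (j : ℕ) :
    (univ.filter fun i => (ham_herm (V := V) (q := q)).eigenvalues i <
      ((j : ℝ) + 1) * Fintype.card V / q).card ≤
      (Fintype.card V + 1) ^ q * (Fintype.card V * q + 1) ^ j :=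
  (eig_card (H1 V q) ham_herm (WW V q j) (WW_inv j) _ (fun lam f hf h hp =>
    WW_perp hEN j lam f hf h hp)).trans (finrank_WW j)

theorem eig_nonneg (i : V → Fin q) : 0 ≤ (ham_herm (V := V) (q := q)).eigenvalues i := by
  have h1 := (ham_herm (V := V) (q := q)).mulVec_eigenvectorBasis i
  obtain ⟨u, hu⟩ : ∃ u, u = (ham_herm (V := V) (q := q)).eigenvectorBasis i := ⟨_, rfl⟩
  have h2 := ham_psd (fun c => u c)
  have h3 : ∀ c, ∑ c', H1 V q c c' * u c' =
      (ham_herm (V := V) (q := q)).eigenvalues i * u c := by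
    intro c
    have := congrFun h1 c
    rw [hu]
    exact this
  simp only [h3] at h2
  have h4 : ∑ c, u c * ((ham_herm (V := V) (q := q)).eigenvalues i * u c) =
      (ham_herm (V := V) (q := q)).eigenvalues i * ‖u‖ ^ 2 := by
    rw [EuclideanSpace.norm_sq_eq, Finset.mul_sum]
    refine Finset.sum_congr rfl fun c _ => ?_
    rw [Real.norm_eq_abs, sq_abs]
    ring
  rw [h4, hu, (ham_herm (V := V) (q := q)).eigenvectorBasis.orthonormal.1 i] at h2
  simpa using h2

end patterns

/-- The final summation. -/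
theorem final_sum {ι : Type} [Fintype ι] (lam : ι → ℝ) (A B : ℕ) (th s : ℝ) (hth : 0 < th)
    (hlam : ∀ i, 0 ≤ lam i)
    (hc : ∀ j : ℕ, (univ.filter fun i => lam i < ((j : ℝ) + 1) * th).card ≤ A * B ^ j)
    (hs : 0 ≤ s) (hB : 2 * (B : ℝ) ≤ Real.exp (s * th)) :
    ∑ i, Real.exp (-(s * lam i)) ≤ 2 * A := by
  obtain ⟨J, hJ⟩ : ∃ J : ι → ℕ, J = fun i => ⌊lam i / th⌋₊ := ⟨_, rfl⟩
  have h1 : ∀ i, Real.exp (-(s * lam i)) ≤ Real.exp (-(s * th)) ^ J i := by
    intro i
    rw [← Real.exp_nat_mul]
    apply Real.exp_le_exp.2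
    have h2 : (J i : ℝ) ≤ lam i / th := by
      rw [hJ]
      exact Nat.floor_le (div_nonneg (hlam i) hth.le)
    rw [le_div_iff₀ hth] at h2
    nlinarith
  obtain ⟨m, hm⟩ : ∃ m : ℕ, ∀ i, J i < m := by
    refine ⟨univ.sup J + 1, fun i => Nat.lt_succ_iff.2 (Finset.le_sup (Finset.mem_univ i))⟩
  have h3 : ∑ i, Real.exp (-(s * th)) ^ J i = ∑ j ∈ range m,
      ((univ.filter fun i => J i = j).card : ℝ) * Real.exp (-(s * th)) ^ j := by
    rw [← Finset.sum_fiberwise_of_maps_to (t := range m) (g := J)
      (fun i _ => Finset.mem_range.2 (hm i))]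
    refine Finset.sum_congr rfl fun j _ => ?_
    rw [Finset.sum_congr rfl (g := fun _ => Real.exp (-(s * th)) ^ j) (fun i hi => by
      rw [(Finset.mem_filter.1 hi).2]), Finset.sum_const, nsmul_eq_mul]
  have h4 : ∀ j : ℕ, ((univ.filter fun i => J i = j).card : ℝ) * Real.exp (-(s * th)) ^ j ≤
      A * (1 / 2 : ℝ) ^ j := by
    intro j
    have h5 : (univ.filter fun i => J i = j).card ≤ A * B ^ j := by
      refine (Finset.card_le_card ?_).trans (hc j)
      intro i hi
      rw [Finset.mem_filter] at hi ⊢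
      refine ⟨Finset.mem_univ _, ?_⟩
      have h6 : lam i / th < (j : ℝ) + 1 := by
        rw [← hi.2, hJ]
        exact Nat.lt_floor_add_one _
      rwa [div_lt_iff₀ hth] at h6
    have h7 : (B : ℝ) * Real.exp (-(s * th)) ≤ 1 / 2 := by
      rw [Real.exp_neg, ← div_eq_mul_inv, div_le_iff₀ (Real.exp_pos _)]
      linarith
    have h8 : ((B : ℝ) * Real.exp (-(s * th))) ^ j ≤ (1 / 2) ^ j :=
      pow_le_pow_left₀ (mul_nonneg (Nat.cast_nonneg _) (Real.exp_pos _).le) h7 j
    calc ((univ.filter fun i => J i = j).card : ℝ) * Real.exp (-(s * th)) ^ j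
        ≤ ((A * B ^ j : ℕ) : ℝ) * Real.exp (-(s * th)) ^ j :=
          mul_le_mul_of_nonneg_right (Nat.cast_le.2 h5) (pow_nonneg (Real.exp_pos _).le _)
      _ = A * ((B : ℝ) * Real.exp (-(s * th))) ^ j := by push_cast; rw [mul_pow]; ring
      _ ≤ A * (1 / 2 : ℝ) ^ j := mul_le_mul_of_nonneg_left h8 (Nat.cast_nonneg _)
  calc ∑ i, Real.exp (-(s * lam i)) ≤ ∑ i, Real.exp (-(s * th)) ^ J i :=
        Finset.sum_le_sum fun i _ => h1 i
    _ ≤ ∑ j ∈ range m, A * (1 / 2 : ℝ) ^ j := by
        rw [h3]
        exact Finset.sum_le_sum fun j _ => h4 j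
    _ = A * ∑ j ∈ range m, (1 / 2 : ℝ) ^ j := by rw [Finset.mul_sum]
    _ ≤ A * 2 := mul_le_mul_of_nonneg_left (sum_geometric_two_le m) (Nat.cast_nonneg _)
    _ = 2 * A := mul_comm _ _

theorem t_CG (hEN : Pool.Agent.Y998.CN.S_EN) : Pool.Agent.Y998.CN.S_CG := by
  intro V _ _ q s hq hs h
  rcases Nat.eq_zero_or_pos (Fintype.card V) with hn | hn
  · unfold Zf
    rw [hn, Nat.cast_zero, div_zero, E_zero, Matrix.trace_one, Fintype.card_fun, hn,
      Fintype.card_fin]
    norm_num
  · have hnR : (0 : ℝ) < Fintype.card V := by exact_mod_cast hn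
    have hqR : (0 : ℝ) < q := by exact_mod_cast hq
    unfold Zf
    rw [trace_E (H1 V q) ham_herm]
    have h1 := final_sum (ham_herm (V := V) (q := q)).eigenvalues ((Fintype.card V + 1) ^ q)
      (Fintype.card V * q + 1) (Fintype.card V / q) (s / Fintype.card V) (div_pos hnR hqR)
      eig_nonneg (fun j => by
        have h2 := count (V := V) (q := q) hEN j
        rw [mul_div_assoc] at h2
        exact h2) (div_nonneg hs hnR.le) (by
        have h3 : s / (Fintype.card V : ℝ) * (Fintype.card V / q) = s / q := by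
          field_simp
        rw [h3]
        push_cast
        exact h)
    push_cast at h1
    exact h1

end Pool.Agent.Y259.CN
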